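import Pool.Agent.Helper99.PG.Goals

/-!
PROJECT C2, target (a), packet PG-HYP.
-/

namespace Pool.Agent.Helper14.PG

open Pool.Agent.Helper36.SC Pool.Agent.Helper37.Arb Pool.Agent.Helper52.C2 Pool.Agent.Helper99.PG
open scoped Classical

/-- packet CONN -/
theorem conn : GoalConn := by
  intro V D hD f hα hβ e e'
  have h := hD {v | f v = f e'} ⟨e', rfl⟩ (fun v hv => ⟨by
    show f (D.overNext v) = f e'
    rw [hβ v]; exact hv, by
    show f (D.underNext v) = f e'
    rw [hα v]; exact hv⟩)
  have h2 : e ∈ {v | f v = f e'} := by rw [h]; trivial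
  exact h2

theorem region_eq {V : Type} (D : AltDiagram V) {c c' : V × Corner} (h : D.SameSide c c') :
    D.region c = D.region c' :=
  Quotient.sound (Relation.EqvGen.rel _ _ h)

theorem reg_over {V : Type} (D : AltDiagram V) (hp : ∀ v, D.pos v = true) (v : V) :
    D.region (v, .front) = D.region (D.overNext v, .back) := by
  have h := AltDiagram.SameSide.overLeft (D := D) v
  rw [hp v, hp (D.overNext v)] at h
  exact region_eq D h

theorem reg_under {V : Type} (D : AltDiagram V) (hp : ∀ v, D.pos v = true) (v : V) :
    D.region (v, .front) = D.region (D.underNext v, .back) := by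
  have h := AltDiagram.SameSide.underRight (D := D) v
  rw [hp v, hp (D.underNext v)] at h
  exact region_eq D h

/-- packet HYP -/
theorem hyp : GoalHyp := by
  intro hPot hConn V _ _ S
  have hα : S.D.underNext none ≠ none := by
    intro h
    have := S.D.underNext.injective (h.trans S.hl.symm)
    simp at this
  have hβ : S.D.overNext none ≠ none := by
    intro h
    have := S.D.overNext.injective (h.trans S.hr.symm)
    simp at this
  refine ⟨{
    α := S.D.underNext
    β := S.D.overNext
    conn := hConn S.D S.connected
    pot := hPot S.D S.pos S.connected S.planar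
    hα := hα
    hβ := hβ
    cut := ?_ }, rfl, rfl⟩
  refine ⟨fun v => if S.D.region (v, .back) = S.D.region (none, .back) then 1 else 0, ?_, ?_⟩
  · intro e
    simp only []
    rw [← reg_over S.D S.pos e, ← reg_under S.D S.pos e]
  · simp only [if_true]
    rw [← reg_under S.D S.pos none, if_neg S.cut]
    norm_num

/-- packet CIRC -/
theorem circ : GoalCirc := by
  intro E _ α β
  refine ⟨{
    C := Quotient (Equiv.Perm.SameCycle.setoid α) ⊕ Quotient (Equiv.Perm.SameCycle.setoid β)
    fin := inferInstance
    lf := fun e => Sum.inl (Quotient.mk _ e)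
    rt := fun e => Sum.inr (Quotient.mk _ e)
    left := fun c => c.isLeft = true
    lf_left := fun e => rfl
    rt_left := fun e h => by simp at h }, ?_, ?_, ?_⟩
  · intro e e'
    constructor
    · intro h
      exact Quotient.exact (Sum.inl.inj h)
    · intro h
      exact congrArg Sum.inl (Quotient.sound h)
  · intro e e'
    constructor
    · intro h
      exact Quotient.exact (Sum.inr.inj h)
    · intro h
      exact congrArg Sum.inr (Quotient.sound h)
  · rintro (c | c)
    · obtain ⟨e, rfl⟩ := Quotient.exists_rep c
      exact Or.inl ⟨e, rfl⟩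
    · obtain ⟨e, rfl⟩ := Quotient.exists_rep c
      exact Or.inr ⟨e, rfl⟩

end Pool.Agent.Helper14.PG
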